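import Mathlib
import Pool.Agent.R758.Cov.PL

/-!
Planar measures with a log-concave density are log-concave.
-/

set_option autoImplicit false

open MeasureTheory Set Filter Topology
open scoped ENNReal Pointwise

namespace Pool.Agent.R758.FD

/-- A Borel measure on `ℝⁿ` is log-concave if `μ(λA + (1-λ)B) ≥ μ(A)^λ μ(B)^{1-λ}` for all
(nonempty) Borel sets `A`, `B` and all `λ ∈ [0,1]`. -/
def IsLogConcave {n : ℕ} (μ : Measure (Fin n → ℝ)) : Prop :=
  ∀ A B : Set (Fin n → ℝ), MeasurableSet A → MeasurableSet B → A.Nonempty → B.Nonempty →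
    ∀ l : ℝ, 0 ≤ l → l ≤ 1 → μ A ^ l * μ B ^ (1 - l) ≤ μ (l • A + (1 - l) • B)

theorem pl1 (l : ℝ) (h0 : 0 < l) (h1 : l < 1) (f g h : ℝ → ℝ≥0∞) (hf : Measurable f)
    (hg : Measurable g) (hh : Measurable h)
    (H : ∀ x y, f x ^ l * g y ^ (1 - l) ≤ h (l * x + (1 - l) * y)) :
    (∫⁻ x, f x) ^ l * (∫⁻ x, g x) ^ (1 - l) ≤ ∫⁻ x, h x := by
  have := Pool.Agent.R758.Cov.plJ (J := Fin 2) ![l, 1 - l] (by
      intro j; fin_cases j
      · simpa using h0
      · simpa using h1) (by simp) ![f, g] h (by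
      intro j; fin_cases j
      · simpa using hf
      · simpa using hg) hh (by
      intro t
      simpa [Fin.prod_univ_two, Fin.sum_univ_two] using H (t 0) (t 1))
  simpa [Fin.prod_univ_two] using this

theorem pl2 (l : ℝ) (h0 : 0 < l) (h1 : l < 1) (f g h : ℝ × ℝ → ℝ≥0∞) (hf : Measurable f)
    (hg : Measurable g) (hh : Measurable h)
    (H : ∀ z z' : ℝ × ℝ, f z ^ l * g z' ^ (1 - l) ≤
      h (l * z.1 + (1 - l) * z'.1, l * z.2 + (1 - l) * z'.2)) :
    (∫⁻ x, f x) ^ l * (∫⁻ x, g x) ^ (1 - l) ≤ ∫⁻ x, h x := by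
  rw [Measure.volume_eq_prod, lintegral_prod _ hf.aemeasurable, lintegral_prod _ hg.aemeasurable,
    lintegral_prod _ hh.aemeasurable]
  refine pl1 l h0 h1 _ _ _ hf.lintegral_prod_right' hg.lintegral_prod_right'
    hh.lintegral_prod_right' fun x y => ?_
  exact pl1 l h0 h1 _ _ _ (hf.comp measurable_prodMk_left) (hg.comp measurable_prodMk_left)
    (hh.comp measurable_prodMk_left) fun u v => H (x, u) (y, v)

theorem lc_withDensity (p : ℝ × ℝ → ℝ≥0∞) (hp : Measurable p)
    (hlc : ∀ (l : ℝ), 0 < l → l < 1 → ∀ z z' : ℝ × ℝ, p z ^ l * p z' ^ (1 - l) ≤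
      p (l * z.1 + (1 - l) * z'.1, l * z.2 + (1 - l) * z'.2))
    (l : ℝ) (h0 : 0 < l) (h1 : l < 1) (A B C : Set (ℝ × ℝ)) (hA : MeasurableSet A)
    (hB : MeasurableSet B)
    (hC : ∀ z ∈ A, ∀ z' ∈ B, (l * z.1 + (1 - l) * z'.1, l * z.2 + (1 - l) * z'.2) ∈ C) :
    (volume.withDensity p A) ^ l * (volume.withDensity p B) ^ (1 - l) ≤
      volume.withDensity p C := by
  set ν := (volume : Measure (ℝ × ℝ)).withDensity p with hν
  have hC' : MeasurableSet (toMeasurable ν C) := measurableSet_toMeasurable _ _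
  rw [← measure_toMeasurable (μ := ν) C, hν, withDensity_apply _ hA, withDensity_apply _ hB,
    ← hν, show ν (toMeasurable ν C) = ∫⁻ z in toMeasurable ν C, p z by
      rw [hν, withDensity_apply _ (by rw [← hν]; exact hC')],
    ← lintegral_indicator hA, ← lintegral_indicator hB, ← lintegral_indicator hC']
  refine pl2 l h0 h1 _ _ _ (hp.indicator hA) (hp.indicator hB) (hp.indicator hC') fun z z' => ?_
  have h1' : 0 < 1 - l := by linarith
  by_cases hz : z ∈ A
  · by_cases hz' : z' ∈ B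
    · rw [Set.indicator_of_mem hz, Set.indicator_of_mem hz',
        Set.indicator_of_mem (subset_toMeasurable ν C (hC z hz z' hz'))]
      exact hlc l h0 h1 z z'
    · rw [Set.indicator_of_notMem hz', ENNReal.zero_rpow_of_pos h1', mul_zero]
      exact zero_le
  · rw [Set.indicator_of_notMem hz, ENNReal.zero_rpow_of_pos h0, zero_mul]
    exact zero_le

/-- The transfer to `Fin 2 → ℝ`. -/
theorem isLogConcave_map (p : ℝ × ℝ → ℝ≥0∞) (hp : Measurable p)
    (hlc : ∀ (l : ℝ), 0 < l → l < 1 → ∀ z z' : ℝ × ℝ, p z ^ l * p z' ^ (1 - l) ≤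
      p (l * z.1 + (1 - l) * z'.1, l * z.2 + (1 - l) * z'.2)) :
    IsLogConcave (n := 2)
      ((volume.withDensity p).map (MeasurableEquiv.finTwoArrow (α := ℝ)).symm) := by
  intro A B hA hB hAn hBn l h0 h1
  rcases h0.eq_or_lt with h | h0
  · subst h
    rw [zero_smul_set hAn, sub_zero, one_smul, zero_add]
    simp
  rcases h1.eq_or_lt with h | h1
  · subst h
    rw [sub_self, zero_smul_set hBn, one_smul, add_zero]
    simp
  rw [MeasurableEquiv.map_apply, MeasurableEquiv.map_apply, MeasurableEquiv.map_apply]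
  refine lc_withDensity p hp hlc l h0 h1 _ _ _
    ((MeasurableEquiv.measurable _) hA) ((MeasurableEquiv.measurable _) hB) ?_
  intro z hz z' hz'
  simp only [Set.mem_preimage] at hz hz' ⊢
  refine Set.mem_add.2 ⟨_, Set.smul_mem_smul_set hz, _, Set.smul_mem_smul_set hz', ?_⟩
  ext i
  fin_cases i <;> simp [MeasurableEquiv.finTwoArrow]

end Pool.Agent.R758.FD
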