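import Mathlib
import Pool.Agent.R758.FD.PL2

/-!
The planar convex body: the region above the supremum of the tangent lines of the parabolas
`y = x² + c_j` over the intervals `[a_j, b_j]`.
-/

set_option autoImplicit false

open MeasureTheory Set Filter Topology
open scoped ENNReal Pointwise

namespace Pool.Agent.R758.FD

noncomputable def bb (j : ℕ) : ℝ := (1 / 2) ^ j
noncomputable def aa (j : ℕ) : ℝ := (3 / 5) * (1 / 2) ^ j
noncomputable def cc (j : ℕ) : ℝ := (1 / 4) ^ j / 75

theorem bb_pos (j : ℕ) : 0 < bb j := by unfold bb; positivity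

theorem bb_succ (j : ℕ) : bb (j + 1) = bb j / 2 := by
  unfold bb
  rw [pow_succ]
  ring

theorem aa_eq (j : ℕ) : aa j = 3 / 5 * bb j := rfl

theorem cc_eq (j : ℕ) : cc j = bb j ^ 2 / 75 := by
  unfold cc bb
  rw [← pow_mul, mul_comm j 2, pow_mul]
  norm_num

theorem bb_anti {i j : ℕ} (h : i ≤ j) : bb j ≤ bb i := by
  unfold bb
  exact pow_le_pow_of_le_one (by norm_num) (by norm_num) h

theorem bb_le_one (j : ℕ) : bb j ≤ 1 := by
  have := bb_anti (Nat.zero_le j)
  simpa [bb] using this

theorem bb_zero : bb 0 = 1 := by simp [bb]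

/-- Index set: pairs `(j, e)` with `e ∈ [a_j, b_j]`. -/
def Idx : Type := {p : ℕ × ℝ // aa p.1 ≤ p.2 ∧ p.2 ≤ bb p.1}

/-- The tangent line at `e` of the parabola `y = x² + c_j`. -/
noncomputable def line (p : Idx) (x : ℝ) : ℝ := 2 * p.1.2 * x - p.1.2 ^ 2 + cc p.1.1

/-- The lower boundary of the body. -/
noncomputable def phi (x : ℝ) : ℝ := ⨆ p : Idx, line p x

instance : Nonempty Idx :=
  ⟨⟨(0, 1), by simp [aa]; norm_num, by simp [bb]⟩⟩

theorem cc_le (j : ℕ) : cc j ≤ 1 / 75 := by
  rw [cc_eq]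
  have h1 := bb_le_one j
  have h2 := bb_pos j
  have : bb j ^ 2 ≤ 1 := by nlinarith
  linarith

theorem cc_pos (j : ℕ) : 0 < cc j := by
  rw [cc_eq]
  have h2 := bb_pos j
  positivity

theorem line_le (p : Idx) (x : ℝ) : line p x ≤ x ^ 2 + 1 / 75 := by
  unfold line
  have := cc_le p.1.1
  nlinarith [sq_nonneg (x - p.1.2)]

theorem bdd (x : ℝ) : BddAbove (Set.range fun p : Idx => line p x) :=
  ⟨x ^ 2 + 1 / 75, by rintro _ ⟨p, rfl⟩; exact line_le p x⟩

theorem phi_le (x : ℝ) : phi x ≤ x ^ 2 + 1 / 75 := ciSup_le fun p => line_le p x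

theorem le_phi (j : ℕ) (e x : ℝ) (h1 : aa j ≤ e) (h2 : e ≤ bb j) :
    2 * e * x - e ^ 2 + cc j ≤ phi x :=
  le_ciSup (f := fun p : Idx => line p x) (bdd x) ⟨(j, e), h1, h2⟩

theorem phi_I (j : ℕ) (x : ℝ) (h1 : aa j ≤ x) (h2 : x ≤ bb j) : phi x = x ^ 2 + cc j := by
  refine le_antisymm (ciSup_le fun p => ?_) ?_
  · obtain ⟨⟨i, e⟩, he1, he2⟩ := p
    simp only at he1 he2
    unfold line
    simp only
    rcases le_or_gt j i with h | h
    · have : cc i ≤ cc j := by
        rw [cc_eq, cc_eq]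
        have h3 := bb_anti h
        have h4 := bb_pos i
        have : bb i ^ 2 ≤ bb j ^ 2 := by nlinarith
        linarith
      nlinarith [sq_nonneg (x - e)]
    · have h3 : bb j ≤ bb (i + 1) := bb_anti h
      rw [bb_succ] at h3
      have h4 := bb_pos j
      have h5 := bb_pos i
      rw [aa_eq] at he1
      have h6 : 0 ≤ e - x - (3 / 5 * bb i - bb j) := by linarith
      have h7 : 0 ≤ 3 / 5 * bb i - bb j := by linarith
      have h8 : (3 / 5 * bb i - bb j) ^ 2 ≤ (e - x) ^ 2 := by nlinarith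
      have h9 : cc i - cc j ≤ (3 / 5 * bb i - bb j) ^ 2 := by
        rw [cc_eq, cc_eq]
        have : 0 ≤ (bb i - 2 * bb j) * (13 * bb i - 19 * bb j) :=
          mul_nonneg (by linarith) (by linarith)
        nlinarith
      nlinarith
  · have := le_phi j x x h1 h2
    linarith

theorem phi_T (j : ℕ) (x : ℝ) (h1 : bb (j + 1) ≤ x) (h2 : x ≤ aa j) :
    x ^ 2 + cc (j + 1) ≤ phi x := by
  have hb := bb_pos j
  have h := le_phi j (aa j) x le_rfl (by rw [aa_eq]; linarith)
  rw [cc_eq, bb_succ]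
  rw [cc_eq] at h
  rw [bb_succ] at h1
  have h3 : (aa j - x) ^ 2 ≤ (bb j / 10) ^ 2 := by
    rw [aa_eq] at h2 ⊢
    nlinarith
  nlinarith

theorem exists_scale {x : ℝ} (h0 : 0 < x) (h1 : x ≤ 1) : ∃ j : ℕ, bb (j + 1) < x ∧ x ≤ bb j := by
  unfold bb
  exact exists_nat_pow_near_of_lt_one h0 h1 (by norm_num) (by norm_num)

theorem phi_lower {x : ℝ} (h0 : 0 < x) (h1 : x ≤ 1) : x ^ 2 + x ^ 2 / 300 ≤ phi x := by
  obtain ⟨j, hj1, hj2⟩ := exists_scale h0 h1
  have hb := bb_pos j
  have h3 : x ^ 2 ≤ bb j ^ 2 := by nlinarith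
  rcases le_or_gt x (aa j) with h | h
  · have := phi_T j x hj1.le h
    rw [cc_eq, bb_succ] at this
    nlinarith
  · rw [phi_I j x h.le hj2, cc_eq]
    nlinarith

theorem idx_nonneg (p : Idx) : 0 ≤ p.1.2 := by
  have := p.2.1
  rw [aa_eq] at this
  have := bb_pos p.1.1
  linarith

theorem phi_mono : Monotone phi := by
  intro x y hxy
  refine ciSup_mono (bdd y) fun p => ?_
  unfold line
  have := idx_nonneg p
  nlinarith

theorem phi_meas : Measurable phi := phi_mono.measurable

theorem phi_convex (l x y : ℝ) (h0 : 0 < l) (h1 : l < 1) :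
    phi (l * x + (1 - l) * y) ≤ l * phi x + (1 - l) * phi y := by
  refine ciSup_le fun p => ?_
  have e1 : line p x ≤ phi x := le_ciSup (f := fun p : Idx => line p x) (bdd x) p
  have e2 : line p y ≤ phi y := le_ciSup (f := fun p : Idx => line p y) (bdd y) p
  have e3 : line p (l * x + (1 - l) * y) = l * line p x + (1 - l) * line p y := by
    unfold line
    ring
  rw [e3]
  have : 0 < 1 - l := by linarith
  gcongr

/-- The body. -/
def body : Set (ℝ × ℝ) := {z | 0 < z.1 ∧ z.1 ≤ 1 ∧ phi z.1 ≤ z.2 ∧ z.2 ≤ 2}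

theorem body_meas : MeasurableSet body := by
  unfold body
  have h := phi_meas
  refine (measurableSet_lt measurable_const measurable_fst).inter
    ((measurableSet_le measurable_fst measurable_const).inter
    ((measurableSet_le (h.comp measurable_fst) measurable_snd).inter
    (measurableSet_le measurable_snd measurable_const)))

/-- The density `x · 1_K`. -/
noncomputable def dens (z : ℝ × ℝ) : ℝ≥0∞ := body.indicator (fun z => ENNReal.ofReal z.1) z

theorem dens_meas : Measurable dens := by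
  unfold dens
  exact (ENNReal.measurable_ofReal.comp measurable_fst).indicator body_meas

theorem dens_lc (l : ℝ) (h0 : 0 < l) (h1 : l < 1) (z z' : ℝ × ℝ) :
    dens z ^ l * dens z' ^ (1 - l) ≤
      dens (l * z.1 + (1 - l) * z'.1, l * z.2 + (1 - l) * z'.2) := by
  have h1' : 0 < 1 - l := by linarith
  unfold dens
  by_cases hz : z ∈ body
  · by_cases hz' : z' ∈ body
    · obtain ⟨x1, x2, x3, x4⟩ := hz
      obtain ⟨y1, y2, y3, y4⟩ := hz'
      have hm : (l * z.1 + (1 - l) * z'.1, l * z.2 + (1 - l) * z'.2) ∈ body := by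
        refine ⟨by positivity, by nlinarith, ?_, by nlinarith⟩
        refine (phi_convex l _ _ h0 h1).trans ?_
        exact add_le_add (mul_le_mul_of_nonneg_left x3 h0.le) (mul_le_mul_of_nonneg_left y3 h1'.le)
      rw [Set.indicator_of_mem (by exact ⟨x1, x2, x3, x4⟩),
        Set.indicator_of_mem (by exact ⟨y1, y2, y3, y4⟩), Set.indicator_of_mem hm]
      rw [ENNReal.ofReal_rpow_of_pos x1, ENNReal.ofReal_rpow_of_pos y1,
        ← ENNReal.ofReal_mul (by positivity)]
      exact ENNReal.ofReal_le_ofReal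
        (Real.geom_mean_le_arith_mean2_weighted h0.le h1'.le x1.le y1.le (by ring))
    · rw [Set.indicator_of_notMem hz', ENNReal.zero_rpow_of_pos h1', mul_zero]
      exact zero_le
  · rw [Set.indicator_of_notMem hz, ENNReal.zero_rpow_of_pos h0, zero_mul]
    exact zero_le

/-- The unnormalised measure. -/
noncomputable def nu : Measure (ℝ × ℝ) := volume.withDensity dens

theorem nu_apply (S : Set (ℝ × ℝ)) (hS : MeasurableSet S) :
    nu S = ∫⁻ x in Ioc (0 : ℝ) 1, ENNReal.ofReal x *
      volume (Icc (phi x) 2 ∩ {y | (x, y) ∈ S}) := by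
  unfold nu
  rw [withDensity_apply _ hS, ← lintegral_indicator hS, Measure.volume_eq_prod,
    lintegral_prod _ (dens_meas.indicator hS).aemeasurable,
    ← lintegral_indicator measurableSet_Ioc]
  refine lintegral_congr fun x => ?_
  by_cases hx : x ∈ Ioc (0 : ℝ) 1
  · rw [Set.indicator_of_mem hx]
    have hm : MeasurableSet (Icc (phi x) 2 ∩ {y | (x, y) ∈ S}) :=
      measurableSet_Icc.inter (measurable_prodMk_left hS)
    rw [← setLIntegral_one (Icc (phi x) 2 ∩ {y | (x, y) ∈ S}), ← lintegral_const_mul _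
      measurable_const, ← lintegral_indicator hm]
    refine lintegral_congr fun y => ?_
    by_cases hy : y ∈ Icc (phi x) 2 ∩ {y | (x, y) ∈ S}
    · rw [Set.indicator_of_mem hy]
      have h1 : (x, y) ∈ S := hy.2
      have h2 : (x, y) ∈ body := ⟨hx.1, hx.2, hy.1.1, hy.1.2⟩
      rw [Set.indicator_of_mem h1]
      unfold dens
      rw [Set.indicator_of_mem h2, mul_one]
    · rw [Set.indicator_of_notMem hy]
      by_cases h1 : (x, y) ∈ S
      · rw [Set.indicator_of_mem h1]
        unfold dens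
        rw [Set.indicator_of_notMem]
        intro h2
        exact hy ⟨⟨h2.2.2.1, h2.2.2.2⟩, h1⟩
      · rw [Set.indicator_of_notMem h1]
  · rw [Set.indicator_of_notMem hx]
    rw [lintegral_eq_zero_of_ae_eq_zero]
    refine Filter.Eventually.of_forall fun y => ?_
    show S.indicator dens (x, y) = 0
    by_cases h1 : (x, y) ∈ S
    · rw [Set.indicator_of_mem h1]
      unfold dens
      rw [Set.indicator_of_notMem]
      intro h2
      exact hx ⟨h2.1, h2.2.1⟩
    · rw [Set.indicator_of_notMem h1]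

end Pool.Agent.R758.FD
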