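import Mathlib

/-!
Oscillatory integrals `∫ e^{-itu²} du` with explicit constants.
-/

set_option autoImplicit false

open MeasureTheory Set Filter Topology

namespace Pool.Agent.R758.FD

/-- The phase `e^{-itu²}`. -/
noncomputable def E (t u : ℝ) : ℂ := Complex.exp (-(Complex.I * (t * u ^ 2 : ℝ)))

theorem norm_E (t u : ℝ) : ‖E t u‖ = 1 := by
  unfold E
  rw [Complex.norm_exp]
  simp [Complex.mul_re]
  norm_cast
  simp

theorem cont_E (t : ℝ) : Continuous (E t) := by
  unfold E
  fun_prop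

theorem hasDeriv_E (t u : ℝ) :
    HasDerivAt (E t) (-(2 * Complex.I * t * u) * E t u) u := by
  unfold E
  have h1 : HasDerivAt (fun u : ℝ => -(Complex.I * ((t * u ^ 2 : ℝ) : ℂ)))
      (-(2 * Complex.I * t * u)) u := by
    have h2 : HasDerivAt (fun u : ℝ => t * u ^ 2) (t * (2 * u)) u := by
      simpa using (hasDerivAt_pow 2 u).const_mul t
    have h3 : HasDerivAt (fun u : ℝ => -(Complex.I * ((t * u ^ 2 : ℝ) : ℂ)))
      (-(Complex.I * ((t * (2 * u) : ℝ) : ℂ))) u := (h2.ofReal_comp.const_mul Complex.I).neg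
    exact h3.congr_deriv (by push_cast; ring)
  exact h1.cexp.congr_deriv (by ring)

/-- First integration by parts. -/
theorem parts_one (t w W : ℝ) (hw : 0 < w) (hW : w ≤ W) :
    2 * Complex.I * t * (∫ u in w..W, E t u) =
      E t w / w - E t W / W - ∫ u in w..W, E t u / (u : ℂ) ^ 2 := by
  have hne : ∀ u ∈ Set.uIcc w W, (u : ℂ) ≠ 0 := by
    intro u hu
    rw [Set.uIcc_of_le hW] at hu
    have : u ≠ 0 := by linarith [hu.1]
    exact_mod_cast this
  have hd : ∀ u ∈ Set.uIcc w W, HasDerivAt (fun u : ℝ => E t u / (u : ℂ))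
      (-(2 * Complex.I * t * E t u) - E t u / (u : ℂ) ^ 2) u := by
    intro u hu
    have h0 := hne u hu
    have hr : HasDerivAt (fun u : ℝ => (u : ℂ)) 1 u := by
      simpa using (hasDerivAt_id u).ofReal_comp
    exact ((hasDeriv_E t u).div hr h0).congr_deriv (by field_simp)
  have hc1 : ContinuousOn (fun u : ℝ => -(2 * Complex.I * t * E t u)) (Set.uIcc w W) := by
    have := cont_E t
    fun_prop
  have hc2 : ContinuousOn (fun u : ℝ => E t u / (u : ℂ) ^ 2) (Set.uIcc w W) := by
    have := cont_E t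
    refine ContinuousOn.div (by fun_prop) (by fun_prop) ?_
    intro u hu
    exact pow_ne_zero _ (hne u hu)
  have hi := intervalIntegral.integral_eq_sub_of_hasDerivAt hd
    ((hc1.sub hc2).intervalIntegrable)
  rw [intervalIntegral.integral_sub hc1.intervalIntegrable hc2.intervalIntegrable,
    intervalIntegral.integral_neg, intervalIntegral.integral_const_mul] at hi
  linear_combination -hi

/-- Second integration by parts. -/
theorem parts_two (t w W : ℝ) (hw : 0 < w) (hW : w ≤ W) :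
    2 * Complex.I * t * (∫ u in w..W, E t u / (u : ℂ) ^ 2) =
      E t w / (w : ℂ) ^ 3 - E t W / (W : ℂ) ^ 3 - 3 * ∫ u in w..W, E t u / (u : ℂ) ^ 4 := by
  have hne : ∀ u ∈ Set.uIcc w W, (u : ℂ) ≠ 0 := by
    intro u hu
    rw [Set.uIcc_of_le hW] at hu
    have : u ≠ 0 := by linarith [hu.1]
    exact_mod_cast this
  have hd : ∀ u ∈ Set.uIcc w W, HasDerivAt (fun u : ℝ => E t u / (u : ℂ) ^ 3)
      (-(2 * Complex.I * t * (E t u / (u : ℂ) ^ 2)) - 3 * (E t u / (u : ℂ) ^ 4)) u := by
    intro u hu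
    have h0 := hne u hu
    have h2 : HasDerivAt (fun u : ℝ => (u : ℂ) ^ 3) (3 * (u : ℂ) ^ 2) u := by
      have h3 := (hasDerivAt_pow 3 u).ofReal_comp
      simp only [Complex.ofReal_pow] at h3
      exact h3.congr_deriv (by push_cast; ring)
    exact ((hasDeriv_E t u).div h2 (pow_ne_zero _ h0)).congr_deriv (by field_simp)
  have hc1 : ContinuousOn (fun u : ℝ => -(2 * Complex.I * t * (E t u / (u : ℂ) ^ 2)))
      (Set.uIcc w W) := by
    have := cont_E t
    refine ContinuousOn.neg (ContinuousOn.mul (by fun_prop) (ContinuousOn.div (by fun_prop)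
      (by fun_prop) ?_))
    intro u hu
    exact pow_ne_zero _ (hne u hu)
  have hc2 : ContinuousOn (fun u : ℝ => 3 * (E t u / (u : ℂ) ^ 4)) (Set.uIcc w W) := by
    have := cont_E t
    refine ContinuousOn.mul (by fun_prop) (ContinuousOn.div (by fun_prop) (by fun_prop) ?_)
    intro u hu
    exact pow_ne_zero _ (hne u hu)
  have hi := intervalIntegral.integral_eq_sub_of_hasDerivAt hd
    ((hc1.sub hc2).intervalIntegrable)
  rw [intervalIntegral.integral_sub hc1.intervalIntegrable hc2.intervalIntegrable,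
    intervalIntegral.integral_neg, intervalIntegral.integral_const_mul,
    intervalIntegral.integral_const_mul] at hi
  linear_combination -hi

theorem norm_pow_int (t w W : ℝ) (hw : 0 < w) (hW : w ≤ W) :
    ‖∫ u in w..W, E t u / (u : ℂ) ^ 2‖ ≤ 1 / w - 1 / W := by
  have hd : ∀ u ∈ Set.uIcc w W, HasDerivAt (fun u : ℝ => -(1 / u)) (1 / u ^ 2) u := by
    intro u hu
    rw [Set.uIcc_of_le hW] at hu
    have h0 : u ≠ 0 := by linarith [hu.1]
    have h9 : HasDerivAt (fun u : ℝ => -(u⁻¹)) (-(-(u ^ 2)⁻¹)) u := (hasDerivAt_inv h0).neg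
    simp only [one_div]
    exact h9.congr_deriv (by ring)
  have hc : ContinuousOn (fun u : ℝ => 1 / u ^ 2) (Set.uIcc w W) := by
    refine ContinuousOn.div (by fun_prop) (by fun_prop) ?_
    intro u hu
    rw [Set.uIcc_of_le hW] at hu
    have h0 : u ≠ 0 := by linarith [hu.1]
    exact pow_ne_zero _ h0
  have hi := intervalIntegral.integral_eq_sub_of_hasDerivAt hd hc.intervalIntegrable
  calc ‖∫ u in w..W, E t u / (u : ℂ) ^ 2‖ ≤ ∫ u in w..W, 1 / u ^ 2 := by
        refine intervalIntegral.norm_integral_le_of_norm_le hW ?_ hc.intervalIntegrable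
        refine Filter.Eventually.of_forall fun u hu => ?_
        rw [norm_div, norm_E, norm_pow, Complex.norm_real, Real.norm_eq_abs, sq_abs]
    _ = 1 / w - 1 / W := by
        rw [hi]
        ring

theorem norm_pow_int4 (t w W : ℝ) (hw : 0 < w) (hW : w ≤ W) :
    ‖3 * ∫ u in w..W, E t u / (u : ℂ) ^ 4‖ ≤ 1 / w ^ 3 - 1 / W ^ 3 := by
  have hd : ∀ u ∈ Set.uIcc w W, HasDerivAt (fun u : ℝ => -(1 / u ^ 3)) (3 * (1 / u ^ 4)) u := by
    intro u hu
    rw [Set.uIcc_of_le hW] at hu
    have h0 : u ≠ 0 := by linarith [hu.1]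
    have h9 : HasDerivAt (fun u : ℝ => -((u ^ 3)⁻¹)) _ u :=
      ((hasDerivAt_pow 3 u).inv (pow_ne_zero _ h0)).neg
    simp only [one_div]
    refine h9.congr_deriv ?_
    push_cast
    field_simp
  have hc : ContinuousOn (fun u : ℝ => 3 * (1 / u ^ 4)) (Set.uIcc w W) := by
    refine ContinuousOn.mul (by fun_prop) (ContinuousOn.div (by fun_prop) (by fun_prop) ?_)
    intro u hu
    rw [Set.uIcc_of_le hW] at hu
    have h0 : u ≠ 0 := by linarith [hu.1]
    exact pow_ne_zero _ h0
  have hi := intervalIntegral.integral_eq_sub_of_hasDerivAt hd hc.intervalIntegrable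
  rw [← intervalIntegral.integral_const_mul]
  calc ‖∫ u in w..W, 3 * (E t u / (u : ℂ) ^ 4)‖ ≤ ∫ u in w..W, 3 * (1 / u ^ 4) := by
        refine intervalIntegral.norm_integral_le_of_norm_le hW ?_ hc.intervalIntegrable
        refine Filter.Eventually.of_forall fun u hu => ?_
        rw [norm_mul, norm_div, norm_E, norm_pow, Complex.norm_real, Real.norm_eq_abs]
        have : |u| ^ 4 = u ^ 4 := by
          rw [show (4 : ℕ) = 2 * 2 by norm_num, pow_mul, pow_mul, sq_abs]
        rw [this]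
        simp
    _ = 1 / w ^ 3 - 1 / W ^ 3 := by
        rw [hi]
        ring

theorem norm_endpoint (t w : ℝ) (hw : 0 < w) (k : ℕ) : ‖E t w / (w : ℂ) ^ k‖ = 1 / w ^ k := by
  rw [norm_div, norm_E, norm_pow, Complex.norm_real, Real.norm_eq_abs, abs_of_pos hw]

/-- The main term. -/
theorem main_term (t w W : ℝ) (ht : 0 < t) (hw : 0 < w) (hW : w ≤ W) :
    ‖2 * Complex.I * t * (∫ u in w..W, E t u) - E t w / w‖ ≤ 1 / W + 1 / (t * w ^ 3) := by
  have hW0 : 0 < W := lt_of_lt_of_le hw hW
  have h1 := parts_one t w W hw hW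
  have h2 := parts_two t w W hw hW
  have h3 : ‖∫ u in w..W, E t u / (u : ℂ) ^ 2‖ ≤ 1 / (t * w ^ 3) := by
    have h4 : ‖2 * Complex.I * t * (∫ u in w..W, E t u / (u : ℂ) ^ 2)‖ ≤ 2 / w ^ 3 := by
      rw [h2]
      calc ‖E t w / (w : ℂ) ^ 3 - E t W / (W : ℂ) ^ 3 - 3 * ∫ u in w..W, E t u / (u : ℂ) ^ 4‖
          ≤ ‖E t w / (w : ℂ) ^ 3‖ + ‖E t W / (W : ℂ) ^ 3‖ +
            ‖3 * ∫ u in w..W, E t u / (u : ℂ) ^ 4‖ := by
            refine (norm_sub_le _ _).trans ?_
            gcongr
            exact norm_sub_le _ _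
        _ ≤ 1 / w ^ 3 + 1 / W ^ 3 + (1 / w ^ 3 - 1 / W ^ 3) := by
            rw [norm_endpoint t w hw, norm_endpoint t W hW0]
            gcongr
            exact norm_pow_int4 t w W hw hW
        _ = 2 / w ^ 3 := by ring
    have h5 : ‖2 * Complex.I * t * (∫ u in w..W, E t u / (u : ℂ) ^ 2)‖ =
        2 * t * ‖∫ u in w..W, E t u / (u : ℂ) ^ 2‖ := by
      rw [norm_mul, norm_mul, norm_mul]
      simp [abs_of_pos ht]
    rw [h5] at h4
    have h6 : 2 * t * ‖∫ u in w..W, E t u / (u : ℂ) ^ 2‖ ≤ 2 * t * (1 / (t * w ^ 3)) := by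
      refine h4.trans (le_of_eq ?_)
      field_simp
    exact le_of_mul_le_mul_left h6 (by positivity)
  rw [h1]
  calc ‖E t w / w - E t W / W - (∫ u in w..W, E t u / (u : ℂ) ^ 2) - E t w / w‖
      = ‖-(E t W / W) - (∫ u in w..W, E t u / (u : ℂ) ^ 2)‖ := by
        congr 1
        ring
    _ ≤ ‖-(E t W / W)‖ + ‖∫ u in w..W, E t u / (u : ℂ) ^ 2‖ := norm_sub_le _ _
    _ ≤ 1 / W + 1 / (t * w ^ 3) := by
        have := norm_endpoint t W hW0 1
        simp only [pow_one] at this
        rw [norm_neg, this]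
        gcongr

theorem crude_pos (t w W : ℝ) (ht : 0 < t) (hw : 0 < w) (hW : w ≤ W) :
    2 * t * ‖∫ u in w..W, E t u‖ ≤ 2 / w := by
  have hW0 : 0 < W := lt_of_lt_of_le hw hW
  have h1 := parts_one t w W hw hW
  have h5 : ‖2 * Complex.I * t * (∫ u in w..W, E t u)‖ = 2 * t * ‖∫ u in w..W, E t u‖ := by
    rw [norm_mul, norm_mul, norm_mul]
    simp [abs_of_pos ht]
  rw [← h5, h1]
  have e1 := norm_endpoint t W hW0 1
  have e2 := norm_endpoint t w hw 1
  simp only [pow_one] at e1 e2
  calc ‖E t w / w - E t W / W - (∫ u in w..W, E t u / (u : ℂ) ^ 2)‖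
      ≤ ‖E t w / w‖ + ‖E t W / W‖ + ‖∫ u in w..W, E t u / (u : ℂ) ^ 2‖ := by
        refine (norm_sub_le _ _).trans ?_
        gcongr
        exact norm_sub_le _ _
    _ ≤ 1 / w + 1 / W + (1 / w - 1 / W) := by
        rw [e1, e2]
        gcongr
        exact norm_pow_int t w W hw hW
    _ = 2 / w := by ring

/-- The crude bound, uniform in the lower endpoint. -/
theorem crude (t w W : ℝ) (ht : 0 < t) (hw : 0 ≤ w) (hW : w ≤ W) :
    2 * t * ‖∫ u in w..W, E t u‖ ≤ 4 * Real.sqrt t := by
  set s := 1 / Real.sqrt t with hs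
  have hst : 0 < Real.sqrt t := Real.sqrt_pos.2 ht
  have hs0 : 0 < s := by positivity
  have hts : t * s = Real.sqrt t := by
    rw [hs]
    field_simp
    rw [Real.sq_sqrt ht.le]
  have hint : ∀ x y : ℝ, IntervalIntegrable (E t) volume x y := fun x y =>
    (cont_E t).intervalIntegrable x y
  rcases le_or_gt s w with h | h
  · refine (crude_pos t w W ht (lt_of_lt_of_le hs0 h) hW).trans ?_
    calc 2 / w ≤ 2 / s := by gcongr
      _ = 2 * Real.sqrt t := by rw [hs]; field_simp
      _ ≤ 4 * Real.sqrt t := by linarith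
  · rcases le_or_gt W s with h' | h'
    · have : ‖∫ u in w..W, E t u‖ ≤ 1 * |W - w| := by
        refine intervalIntegral.norm_integral_le_of_norm_le_const fun u _ => ?_
        rw [norm_E]
      have h2 : |W - w| ≤ s := by
        rw [abs_of_nonneg (by linarith)]
        linarith
      calc 2 * t * ‖∫ u in w..W, E t u‖ ≤ 2 * t * s := by
            gcongr
            linarith
        _ = 2 * Real.sqrt t := by rw [mul_assoc, hts]
        _ ≤ 4 * Real.sqrt t := by linarith
    · rw [← intervalIntegral.integral_add_adjacent_intervals (hint w s) (hint s W)]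
      have h1 : ‖∫ u in w..s, E t u‖ ≤ 1 * |s - w| := by
        refine intervalIntegral.norm_integral_le_of_norm_le_const fun u _ => ?_
        rw [norm_E]
      have h2 : |s - w| ≤ s := by
        rw [abs_of_nonneg (by linarith)]
        linarith
      have h3 := crude_pos t s W ht hs0 h'.le
      have h4 : (2 : ℝ) / s = 2 * Real.sqrt t := by rw [hs]; field_simp
      calc 2 * t * ‖(∫ u in w..s, E t u) + ∫ u in s..W, E t u‖
          ≤ 2 * t * (‖∫ u in w..s, E t u‖ + ‖∫ u in s..W, E t u‖) := by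
            gcongr
            exact norm_add_le _ _
        _ ≤ 2 * t * s + 2 * t * ‖∫ u in s..W, E t u‖ := by
            rw [mul_add]
            gcongr
            linarith
        _ ≤ 2 * Real.sqrt t + 2 * Real.sqrt t := by
            rw [mul_assoc 2 t s, hts]
            linarith
        _ = 4 * Real.sqrt t := by ring

end Pool.Agent.R758.FD
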