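import Mathlib
import Pool.Agent.R758.FD.Body

/-!
Mass and small-ball estimate.
-/

set_option autoImplicit false

open MeasureTheory Set Filter Topology
open scoped ENNReal Pointwise

namespace Pool.Agent.R758.FD

theorem lint_x (r : ℝ) (hr : 0 ≤ r) :
    ∫⁻ x in Ioc (0 : ℝ) r, ENNReal.ofReal x = ENNReal.ofReal (r ^ 2 / 2) := by
  rw [← ofReal_integral_eq_lintegral_ofReal]
  · rw [← intervalIntegral.integral_of_le hr, integral_id]
    congr 1
    ring
  · exact (continuous_id.integrableOn_Icc).mono_set Ioc_subset_Icc_self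
  · filter_upwards [ae_restrict_mem measurableSet_Ioc] with x hx
    exact hx.1.le

theorem phi_nonneg {x : ℝ} (h0 : 0 < x) (h1 : x ≤ 1) : 0 ≤ phi x := by
  have := phi_lower h0 h1
  nlinarith [sq_nonneg x]

theorem nu_univ_ge : ENNReal.ofReal (1 / 4) ≤ nu univ := by
  rw [nu_apply _ MeasurableSet.univ]
  have h1 : ENNReal.ofReal (1 / 4) = ∫⁻ x in Ioc (0 : ℝ) 1, ENNReal.ofReal x *
      ENNReal.ofReal (1 / 2) := by
    rw [lintegral_mul_const _ ENNReal.measurable_ofReal, lint_x 1 zero_le_one,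
      ← ENNReal.ofReal_mul (by norm_num)]
    norm_num
  rw [h1]
  refine setLIntegral_mono' measurableSet_Ioc fun x hx => ?_
  gcongr
  simp only [mem_univ, ofPred_true, inter_univ, Real.volume_Icc]
  refine ENNReal.ofReal_le_ofReal ?_
  have := phi_le x
  have : x ^ 2 ≤ 1 := by nlinarith [hx.1, hx.2]
  linarith

theorem nu_univ_le : nu univ ≤ 1 := by
  rw [nu_apply _ MeasurableSet.univ]
  have h1 : (1 : ℝ≥0∞) = ∫⁻ x in Ioc (0 : ℝ) 1, ENNReal.ofReal x *
      ENNReal.ofReal 2 := by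
    rw [lintegral_mul_const _ ENNReal.measurable_ofReal, lint_x 1 zero_le_one,
      ← ENNReal.ofReal_mul (by norm_num)]
    norm_num
  rw [h1]
  refine setLIntegral_mono' measurableSet_Ioc fun x hx => ?_
  gcongr
  simp only [mem_univ, ofPred_true, inter_univ, Real.volume_Icc]
  refine ENNReal.ofReal_le_ofReal ?_
  have := phi_nonneg hx.1 hx.2
  linarith

/-- The small-ball estimate. -/
theorem nu_small (a ε : ℝ) (hε : 0 < ε) :
    nu {z | |(z.2 - z.1 ^ 2) ^ 2 - a| ≤ ε} ≤ ENNReal.ofReal (300 * ε) := by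
  have hmeas : MeasurableSet {z : ℝ × ℝ | |(z.2 - z.1 ^ 2) ^ 2 - a| ≤ ε} :=
    measurableSet_le (by fun_prop) measurable_const
  rw [nu_apply _ hmeas]
  set s2 := Real.sqrt (a + ε) with hs2
  set s1 := Real.sqrt (a - ε) with hs1
  have h20 : 0 ≤ s2 := Real.sqrt_nonneg _
  have h10 : 0 ≤ s1 := Real.sqrt_nonneg _
  have h12 : s1 ≤ s2 := Real.sqrt_le_sqrt (by linarith)
  set r := Real.sqrt (300 * s2) with hr
  have hr0 : 0 ≤ r := Real.sqrt_nonneg _
  have hr2 : r ^ 2 = 300 * s2 := Real.sq_sqrt (by positivity)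
  have key : s2 * (s2 - s1) ≤ 2 * ε := by
    rcases le_or_gt (a + ε) 0 with h | h
    · have : s2 = 0 := Real.sqrt_eq_zero_of_nonpos h
      rw [this]
      linarith
    · have e2 : s2 ^ 2 = a + ε := Real.sq_sqrt h.le
      have e1 : a - ε ≤ s1 ^ 2 := by
        rcases le_or_gt (a - ε) 0 with h' | h'
        · nlinarith [sq_nonneg s1]
        · rw [hs1, Real.sq_sqrt h'.le]
      nlinarith
  have hpt : ∀ x ∈ Ioc (0 : ℝ) 1, ENNReal.ofReal x *
      volume (Icc (phi x) 2 ∩ {y | (x, y) ∈ {z : ℝ × ℝ | |(z.2 - z.1 ^ 2) ^ 2 - a| ≤ ε}}) ≤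
      (Ioc (0 : ℝ) r).indicator (fun x => ENNReal.ofReal x * ENNReal.ofReal (s2 - s1)) x := by
    intro x hx
    have hlow := phi_lower hx.1 hx.2
    have hsub : Icc (phi x) 2 ∩ {y | (x, y) ∈ {z : ℝ × ℝ | |(z.2 - z.1 ^ 2) ^ 2 - a| ≤ ε}} ⊆
        {y | x ^ 2 / 300 ≤ s2 ∧ y ∈ Icc (x ^ 2 + s1) (x ^ 2 + s2)} := by
      rintro y ⟨⟨hy1, hy2⟩, hy3⟩
      simp only [mem_ofPred_eq, abs_le] at hy3
      have hu : x ^ 2 / 300 ≤ y - x ^ 2 := by linarith
      have hu0 : 0 ≤ y - x ^ 2 := le_trans (by positivity) hu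
      have h2 : y - x ^ 2 ≤ s2 := Real.le_sqrt_of_sq_le (by linarith [hy3.2])
      have h1 : s1 ≤ y - x ^ 2 := Real.sqrt_le_iff.2 ⟨hu0, by linarith [hy3.1]⟩
      exact ⟨hu.trans h2, by linarith, by linarith⟩
    by_cases hxr : x ∈ Ioc (0 : ℝ) r
    · rw [Set.indicator_of_mem hxr]
      gcongr
      calc volume _ ≤ volume (Icc (x ^ 2 + s1) (x ^ 2 + s2)) :=
            measure_mono (hsub.trans fun y hy => hy.2)
        _ = ENNReal.ofReal (s2 - s1) := by
            rw [Real.volume_Icc]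
            congr 1
            ring
    · rw [Set.indicator_of_notMem hxr]
      have hxr' : r < x := by
        by_contra h
        exact hxr ⟨hx.1, not_lt.1 h⟩
      have : Icc (phi x) 2 ∩ {y | (x, y) ∈ {z : ℝ × ℝ | |(z.2 - z.1 ^ 2) ^ 2 - a| ≤ ε}} = ∅ := by
        refine Set.eq_empty_of_forall_notMem fun y hy => ?_
        have h3 := (hsub hy).1
        nlinarith
      rw [this, measure_empty, mul_zero]
  calc ∫⁻ x in Ioc (0 : ℝ) 1, ENNReal.ofReal x *
      volume (Icc (phi x) 2 ∩ {y | (x, y) ∈ {z : ℝ × ℝ | |(z.2 - z.1 ^ 2) ^ 2 - a| ≤ ε}})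
      ≤ ∫⁻ x in Ioc (0 : ℝ) 1,
        (Ioc (0 : ℝ) r).indicator (fun x => ENNReal.ofReal x * ENNReal.ofReal (s2 - s1)) x :=
        setLIntegral_mono' measurableSet_Ioc hpt
    _ ≤ ∫⁻ x, (Ioc (0 : ℝ) r).indicator (fun x => ENNReal.ofReal x * ENNReal.ofReal (s2 - s1)) x :=
        setLIntegral_le_lintegral _ _
    _ = ∫⁻ x in Ioc (0 : ℝ) r, ENNReal.ofReal x * ENNReal.ofReal (s2 - s1) :=
        lintegral_indicator measurableSet_Ioc _
    _ = ENNReal.ofReal (r ^ 2 / 2) * ENNReal.ofReal (s2 - s1) := by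
        rw [lintegral_mul_const _ ENNReal.measurable_ofReal, lint_x r hr0]
    _ = ENNReal.ofReal (r ^ 2 / 2 * (s2 - s1)) := by
        rw [ENNReal.ofReal_mul (by positivity)]
    _ ≤ ENNReal.ofReal (300 * ε) := by
        refine ENNReal.ofReal_le_ofReal ?_
        rw [hr2]
        nlinarith

end Pool.Agent.R758.FD
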