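import Mathlib
import Pool.Agent.R758.FD.Small
import Pool.Agent.R758.FD.Osc

/-!
The characteristic function as an iterated integral.
-/

set_option autoImplicit false

open MeasureTheory Set Filter Topology
open scoped ENNReal Pointwise

namespace Pool.Agent.R758.FD

/-- The inner integral. -/
noncomputable def G (t x : ℝ) : ℂ := ∫ u in (phi x - x ^ 2)..(2 - x ^ 2), E t u

theorem inner_eq (t x : ℝ) : ∫ y in (phi x)..2, E t (y - x ^ 2) = G t x := by
  unfold G
  rw [intervalIntegral.integral_comp_sub_right (fun u => E t u) (x ^ 2)]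

theorem norm_G_le (t x : ℝ) (hx : x ∈ Ioc (0 : ℝ) 1) : ‖G t x‖ ≤ 2 := by
  unfold G
  have h1 : ‖∫ u in (phi x - x ^ 2)..(2 - x ^ 2), E t u‖ ≤
      1 * |(2 - x ^ 2) - (phi x - x ^ 2)| :=
    intervalIntegral.norm_integral_le_of_norm_le_const fun u _ => (norm_E t u).le
  refine h1.trans ?_
  have h2 := phi_nonneg hx.1 hx.2
  have h3 := phi_le x
  have h4 : x ^ 2 ≤ 1 := by nlinarith [hx.1, hx.2]
  rw [one_mul, abs_le]
  constructor <;> linarith

theorem G_meas (t : ℝ) : Measurable (G t) := by
  have hint : ∀ a b : ℝ, IntervalIntegrable (E t) volume a b := fun a b =>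
    (cont_E t).intervalIntegrable a b
  have hF : Continuous (fun s : ℝ => ∫ u in (0 : ℝ)..s, E t u) :=
    intervalIntegral.continuous_primitive hint 0
  have h : G t = fun x => (∫ u in (0 : ℝ)..(2 - x ^ 2), E t u) -
      ∫ u in (0 : ℝ)..(phi x - x ^ 2), E t u := by
    ext x
    unfold G
    rw [intervalIntegral.integral_interval_sub_left (hint _ _) (hint _ _)]
  rw [h]
  have hp := phi_meas
  exact (hF.measurable.comp (by fun_prop)).sub (hF.measurable.comp (by fun_prop))

theorem int_xG (t : ℝ) (a b : ℝ) (ha : 0 ≤ a) (hb : b ≤ 1) :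
    IntegrableOn (fun x : ℝ => (x : ℂ) * G t x) (Ioc a b) := by
  refine Integrable.mono' (g := fun _ => (2 : ℝ)) (integrable_const _) ?_ ?_
  · exact ((Complex.measurable_ofReal).mul (G_meas t)).aestronglyMeasurable
  · filter_upwards [ae_restrict_mem measurableSet_Ioc] with x hx
    have hx' : x ∈ Ioc (0 : ℝ) 1 := ⟨lt_of_le_of_lt ha hx.1, hx.2.trans hb⟩
    rw [norm_mul, Complex.norm_real, Real.norm_eq_abs, abs_of_pos hx'.1]
    have := norm_G_le t x hx'
    nlinarith [hx'.1, hx'.2, norm_nonneg (G t x)]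

theorem nu_integral (t : ℝ) :
    ∫ z, E t (z.2 - z.1 ^ 2) ∂nu = ∫ x in Ioc (0 : ℝ) 1, (x : ℂ) * G t x := by
  unfold nu
  have hfin : ∀ᵐ z ∂(volume : Measure (ℝ × ℝ)), dens z < ∞ := by
    refine Filter.Eventually.of_forall fun z => ?_
    unfold dens
    by_cases hz : z ∈ body
    · rw [Set.indicator_of_mem hz]
      exact ENNReal.ofReal_lt_top
    · rw [Set.indicator_of_notMem hz]
      exact ENNReal.zero_lt_top
  rw [integral_withDensity_eq_integral_toReal_smul dens_meas hfin, Measure.volume_eq_prod,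
    integral_prod]
  · rw [← integral_indicator measurableSet_Ioc]
    refine integral_congr_ae (Filter.Eventually.of_forall fun x => ?_)
    simp only
    by_cases hx : x ∈ Ioc (0 : ℝ) 1
    · rw [Set.indicator_of_mem hx, ← inner_eq, intervalIntegral.integral_of_le (by
        have := phi_le x
        have : x ^ 2 ≤ 1 := by nlinarith [hx.1, hx.2]
        linarith), ← integral_Icc_eq_integral_Ioc, ← integral_const_mul,
        ← integral_indicator measurableSet_Icc]
      refine integral_congr_ae (Filter.Eventually.of_forall fun y => ?_)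
      simp only
      unfold dens
      by_cases hy : y ∈ Icc (phi x) 2
      · have h2 : (x, y) ∈ body := ⟨hx.1, hx.2, hy.1, hy.2⟩
        rw [Set.indicator_of_mem h2, Set.indicator_of_mem hy, ENNReal.toReal_ofReal hx.1.le]
        simp
      · have h2 : (x, y) ∉ body := fun h => hy ⟨h.2.2.1, h.2.2.2⟩
        rw [Set.indicator_of_notMem h2, Set.indicator_of_notMem hy]
        simp
    · rw [Set.indicator_of_notMem hx]
      refine integral_eq_zero_of_ae (Filter.Eventually.of_forall fun y => ?_)
      simp only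
      unfold dens
      have h2 : (x, y) ∉ body := fun h => hx ⟨h.1, h.2.1⟩
      rw [Set.indicator_of_notMem h2]
      simp
  · have hbox : MeasurableSet ((Icc (0 : ℝ) 1) ×ˢ (Icc (0 : ℝ) 2)) :=
      measurableSet_Icc.prod measurableSet_Icc
    refine Integrable.mono' (g := ((Icc (0 : ℝ) 1) ×ˢ (Icc (0 : ℝ) 2)).indicator
      (fun _ => (1 : ℝ))) ?_ ?_ ?_
    · rw [integrable_indicator_iff hbox]
      refine integrableOn_const (by
        rw [← Measure.volume_eq_prod, Measure.volume_eq_prod, Measure.prod_prod]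
        simp [ENNReal.mul_eq_top])
    · have := cont_E t
      exact (dens_meas.ennreal_toReal.aestronglyMeasurable).smul
        (by fun_prop : Continuous fun z : ℝ × ℝ => E t (z.2 - z.1 ^ 2)).aestronglyMeasurable
    · refine Filter.Eventually.of_forall fun z => ?_
      rw [norm_smul, norm_E, mul_one]
      unfold dens
      by_cases hz : z ∈ body
      · have hz' : z ∈ (Icc (0 : ℝ) 1) ×ˢ (Icc (0 : ℝ) 2) :=
          ⟨⟨hz.1.le, hz.2.1⟩, ⟨(phi_nonneg hz.1 hz.2.1).trans hz.2.2.1, hz.2.2.2⟩⟩
        rw [Set.indicator_of_mem hz, Set.indicator_of_mem hz', ENNReal.toReal_ofReal hz.1.le,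
          Real.norm_eq_abs, abs_of_pos hz.1]
        exact hz.2.1
      · rw [Set.indicator_of_notMem hz]
        simp only [ENNReal.toReal_zero, norm_zero]
        exact Set.indicator_nonneg (fun _ _ => zero_le_one) _

end Pool.Agent.R758.FD
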