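import Mathlib
import Pool.Agent.R758.FD.Integ

/-!
The lower bound for the characteristic function along the sequence `t_N = 2π·5625·16^N`.
-/

set_option autoImplicit false

open MeasureTheory Set Filter Topology
open scoped ENNReal Pointwise

namespace Pool.Agent.R758.FD

noncomputable def rr (t x : ℝ) : ℝ := (2 * Complex.I * t * G t x).re

/-- The frequencies. -/
noncomputable def tt (N : ℕ) : ℝ := 2 * Real.pi * 5625 * 16 ^ N

theorem tt_pos (N : ℕ) : 0 < tt N := by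
  unfold tt
  have := Real.pi_pos
  positivity

theorem tt_cc (N j : ℕ) (h : j ≤ N) : tt N * cc j ^ 2 = 2 * Real.pi * ((16 ^ (N - j) : ℕ) : ℝ) := by
  unfold tt cc
  have h1 : (16 : ℝ) ^ N = 16 ^ (N - j) * 16 ^ j := by
    rw [← pow_add, Nat.sub_add_cancel h]
  have h2 : ((1 : ℝ) / 4) ^ j * (1 / 4) ^ j * 16 ^ j = 1 := by
    rw [← mul_pow, ← mul_pow]
    norm_num
  rw [h1]
  push_cast
  linear_combination (2 * Real.pi * 16 ^ (N - j)) * h2

theorem E_one (N j : ℕ) (h : j ≤ N) : E (tt N) (cc j) = 1 := by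
  unfold E
  rw [tt_cc N j h]
  have := Complex.exp_int_mul_two_pi_mul_I (-((16 ^ (N - j) : ℕ) : ℤ))
  rw [← this]
  congr 1
  push_cast
  ring

theorem W_ge {x : ℝ} (h0 : 0 < x) (h1 : x ≤ 1) : 1 ≤ 2 - x ^ 2 := by nlinarith

theorem rr_I (N j : ℕ) (h : j ≤ N) (x : ℝ) (h1 : aa j ≤ x) (h2 : x ≤ bb j) :
    1 / cc j - 1 - 1 / (tt N * cc j ^ 3) ≤ rr (tt N) x := by
  have hx0 : 0 < x := by
    rw [aa_eq] at h1
    have := bb_pos j
    linarith
  have hx1 : x ≤ 1 := h2.trans (bb_le_one j)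
  have hW := W_ge hx0 hx1
  have hc := cc_pos j
  have hc1 := cc_le j
  have hphi : phi x - x ^ 2 = cc j := by
    rw [phi_I j x h1 h2]
    ring
  have hm := main_term (tt N) (cc j) (2 - x ^ 2) (tt_pos N) hc (by linarith)
  rw [E_one N j h] at hm
  unfold rr G
  rw [hphi]
  set Q := 2 * Complex.I * (tt N : ℂ) * ∫ u in (cc j)..(2 - x ^ 2), E (tt N) u
  have h3 : -‖Q - 1 / (cc j : ℂ)‖ ≤ (Q - 1 / (cc j : ℂ)).re := by
    have := Complex.abs_re_le_norm (Q - 1 / (cc j : ℂ))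
    rw [abs_le] at this
    exact this.1
  have h4 : (Q - 1 / (cc j : ℂ)).re = Q.re - 1 / cc j := by
    rw [Complex.sub_re]
    congr 1
    rw [← Complex.ofReal_one, ← Complex.ofReal_div, Complex.ofReal_re]
  have h5 : 1 / (2 - x ^ 2) ≤ 1 := by
    rw [div_le_one (by linarith)]
    exact hW
  rw [h4] at h3
  linarith

theorem rr_T (N j : ℕ) (x : ℝ) (h1 : bb (j + 1) ≤ x) (h2 : x ≤ aa j) :
    -(1 / cc (j + 1)) - 1 - 1 / (tt N * cc (j + 1) ^ 3) ≤ rr (tt N) x := by
  have hx0 : 0 < x := lt_of_lt_of_le (bb_pos _) h1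
  have hx1 : x ≤ 1 := by
    rw [aa_eq] at h2
    have := bb_le_one j
    have := bb_pos j
    linarith
  have hW := W_ge hx0 hx1
  have hc := cc_pos (j + 1)
  have ht := tt_pos N
  have hT := phi_T j x h1 h2
  have hle := phi_le x
  set w := phi x - x ^ 2 with hw
  have hwc : cc (j + 1) ≤ w := by linarith
  have hw0 : 0 < w := lt_of_lt_of_le hc hwc
  have hwW : w ≤ 2 - x ^ 2 := by linarith
  have hm := main_term (tt N) w (2 - x ^ 2) ht hw0 hwW
  unfold rr G
  rw [← hw]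
  set Q := 2 * Complex.I * (tt N : ℂ) * ∫ u in w..(2 - x ^ 2), E (tt N) u
  have h3 : -‖Q‖ ≤ Q.re := by
    have := Complex.abs_re_le_norm Q
    rw [abs_le] at this
    exact this.1
  have h6 : ‖E (tt N) w / (w : ℂ)‖ = 1 / w := by
    have := norm_endpoint (tt N) w hw0 1
    simpa using this
  have h4 : ‖Q‖ ≤ 1 / w + (1 / (2 - x ^ 2) + 1 / (tt N * w ^ 3)) := by
    have : Q = E (tt N) w / (w : ℂ) + (Q - E (tt N) w / (w : ℂ)) := by ring
    rw [this]
    refine (norm_add_le _ _).trans ?_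
    rw [h6]
    gcongr
  have h5 : 1 / (2 - x ^ 2) ≤ 1 := by
    rw [div_le_one (by linarith)]
    exact hW
  have h7 : 1 / w ≤ 1 / cc (j + 1) := one_div_le_one_div_of_le hc hwc
  have h8 : 1 / (tt N * w ^ 3) ≤ 1 / (tt N * cc (j + 1) ^ 3) := by
    refine one_div_le_one_div_of_le (by positivity) ?_
    gcongr
  linarith

theorem rr_small (t x : ℝ) (ht : 0 < t) (hx0 : 0 < x) (hx1 : x ≤ 1) :
    -(4 * Real.sqrt t) ≤ rr t x := by
  have hW := W_ge hx0 hx1
  have hle := phi_le x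
  have hlow := phi_lower hx0 hx1
  have hc := crude t (phi x - x ^ 2) (2 - x ^ 2) ht (by nlinarith [sq_nonneg x]) (by linarith)
  unfold rr
  have h3 : -‖2 * Complex.I * (t : ℂ) * G t x‖ ≤ (2 * Complex.I * (t : ℂ) * G t x).re := by
    have := Complex.abs_re_le_norm (2 * Complex.I * (t : ℂ) * G t x)
    rw [abs_le] at this
    exact this.1
  have h5 : ‖2 * Complex.I * (t : ℂ) * G t x‖ = 2 * t * ‖G t x‖ := by
    rw [norm_mul, norm_mul, norm_mul]
    simp [abs_of_pos ht]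
  rw [h5] at h3
  unfold G at h3 ⊢
  linarith

theorem rr_int (t a b : ℝ) (ha : 0 ≤ a) (hab : a ≤ b) (hb : b ≤ 1) :
    IntervalIntegrable (fun x => x * rr t x) volume a b := by
  rw [intervalIntegrable_iff_integrableOn_Ioc_of_le hab]
  have h := ((int_xG t a b ha hb).const_mul (2 * Complex.I * (t : ℂ))).re
  refine h.congr (Filter.Eventually.of_forall fun x => ?_)
  simp only [rr]
  have : 2 * Complex.I * (t : ℂ) * ((x : ℂ) * G t x) =
      (x : ℂ) * (2 * Complex.I * (t : ℂ) * G t x) := by ring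
  rw [this]
  simp

theorem low (t a b m : ℝ) (ha : 0 ≤ a) (hab : a ≤ b) (hb : b ≤ 1)
    (h : ∀ x ∈ Icc a b, 0 < x → m ≤ rr t x) :
    m * (b ^ 2 - a ^ 2) / 2 ≤ ∫ x in a..b, x * rr t x := by
  have h1 : ∫ x in a..b, x * m = m * (b ^ 2 - a ^ 2) / 2 := by
    rw [intervalIntegral.integral_mul_const, integral_id]
    ring
  rw [← h1]
  refine intervalIntegral.integral_mono_on hab (by
    exact (continuous_id.mul continuous_const).intervalIntegrable _ _) (rr_int t a b ha hab hb) ?_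
  intro x hx
  rcases (ha.trans hx.1).eq_or_lt with h0 | h0
  · rw [← h0]
    simp
  · exact mul_le_mul_of_nonneg_left (h x hx h0) h0.le

theorem step (N j : ℕ) (h : j ≤ N) :
    15 / 2 - 3 / 8 * bb j ^ 2 - 48 * 16 ^ j / 16 ^ N ≤
      ∫ x in (bb (j + 1))..(bb j), x * rr (tt N) x := by
  have hb := bb_pos j
  have hb1 := bb_le_one j
  have hs := bb_succ j
  have e1 : bb (j + 1) ≤ aa j := by rw [hs, aa_eq]; linarith
  have e2 : aa j ≤ bb j := by rw [aa_eq]; linarith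
  have hI := low (tt N) (aa j) (bb j) (1 / cc j - 1 - 1 / (tt N * cc j ^ 3))
    (by rw [aa_eq]; positivity) e2 hb1 (fun x hx _ => rr_I N j h x hx.1 hx.2)
  have hT := low (tt N) (bb (j + 1)) (aa j) (-(1 / cc (j + 1)) - 1 - 1 / (tt N * cc (j + 1) ^ 3))
    (bb_pos _).le e1 (e2.trans hb1) (fun x hx _ => rr_T N j x hx.1 hx.2)
  rw [← intervalIntegral.integral_add_adjacent_intervals
    (rr_int (tt N) (bb (j + 1)) (aa j) (bb_pos _).le e1 (e2.trans hb1))
    (rr_int (tt N) (aa j) (bb j) (by rw [aa_eq]; positivity) e2 hb1)]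
  have ht : 33750 * 16 ^ N ≤ tt N := by
    unfold tt
    have := Real.pi_gt_three
    have h16 : (0 : ℝ) < 16 ^ N := by positivity
    nlinarith
  have hb4 : bb j ^ 4 * 16 ^ j = 1 := by
    unfold bb
    rw [← pow_mul, mul_comm j 4, pow_mul, ← mul_pow]
    norm_num
  have h16 : (0 : ℝ) < 16 ^ j := by positivity
  have h16N : (0 : ℝ) < 16 ^ N := by positivity
  have hbi : bb j ^ 4 = 1 / 16 ^ j := by
    field_simp
    exact hb4
  have key : 1620000 / (tt N * bb j ^ 4) ≤ 48 * 16 ^ j / 16 ^ N := by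
    rw [hbi]
    have : 1620000 / (tt N * (1 / 16 ^ j)) = 1620000 * 16 ^ j / tt N := by
      field_simp
    rw [this, div_le_div_iff₀ (tt_pos N) h16N]
    nlinarith
  have htp := tt_pos N
  have eI : (1 / cc j - 1 - 1 / (tt N * cc j ^ 3)) * (bb j ^ 2 - aa j ^ 2) / 2 =
      24 - 8 / 25 * bb j ^ 2 - 135000 / (tt N * bb j ^ 4) := by
    rw [cc_eq, aa_eq]
    field_simp
    ring
  have eT : (-(1 / cc (j + 1)) - 1 - 1 / (tt N * cc (j + 1) ^ 3)) *
      (aa j ^ 2 - bb (j + 1) ^ 2) / 2 =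
      -(33 / 2) - 11 / 200 * bb j ^ 2 - 1485000 / (tt N * bb j ^ 4) := by
    rw [cc_eq, aa_eq, hs]
    field_simp
    ring
  rw [eI] at hI
  rw [eT] at hT
  have e3 : 135000 / (tt N * bb j ^ 4) + 1485000 / (tt N * bb j ^ 4) =
      1620000 / (tt N * bb j ^ 4) := by
    rw [← add_div]
    norm_num
  linarith

theorem accum (N J : ℕ) (h : J ≤ N) :
    15 / 2 * J - (1 - bb J ^ 2) / 2 - 4 * 16 ^ J / 16 ^ N ≤
      ∫ x in (bb J)..1, x * rr (tt N) x := by
  induction J with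
  | zero =>
    rw [bb_zero]
    simp only [intervalIntegral.integral_same]
    have : (0 : ℝ) ≤ 4 * 16 ^ 0 / 16 ^ N := by positivity
    simp at this ⊢
    positivity
  | succ J ih =>
    have ih' := ih (by omega)
    have hs := step N J (by omega)
    rw [← intervalIntegral.integral_add_adjacent_intervals
      (rr_int (tt N) (bb (J + 1)) (bb J) (bb_pos _).le (bb_anti (Nat.le_succ J)) (bb_le_one J))
      (rr_int (tt N) (bb J) 1 (bb_pos _).le (bb_le_one J) le_rfl)]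
    have e1 : bb (J + 1) ^ 2 = bb J ^ 2 / 4 := by
      rw [bb_succ]
      ring
    rw [e1]
    have e2 : (4 : ℝ) * 16 ^ (J + 1) / 16 ^ N = 64 * 16 ^ J / 16 ^ N := by
      rw [pow_succ]
      ring
    rw [e2]
    have e3 : (0 : ℝ) ≤ 16 ^ J / 16 ^ N := by positivity
    have e4 : (64 : ℝ) * 16 ^ J / 16 ^ N = 64 * (16 ^ J / 16 ^ N) := by ring
    have e5 : (48 : ℝ) * 16 ^ J / 16 ^ N = 48 * (16 ^ J / 16 ^ N) := by ring
    have e6 : (4 : ℝ) * 16 ^ J / 16 ^ N = 4 * (16 ^ J / 16 ^ N) := by ring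
    rw [e4]
    rw [e5] at hs
    rw [e6] at ih'
    push_cast
    linarith

theorem total (N : ℕ) : 15 / 2 * N - 455 ≤ ∫ x in (0 : ℝ)..1, x * rr (tt N) x := by
  have h1 := accum N N le_rfl
  have hb := bb_pos N
  have h2 := low (tt N) 0 (bb N) (-(4 * Real.sqrt (tt N))) le_rfl hb.le (bb_le_one N)
    (fun x hx hx0 => rr_small (tt N) x (tt_pos N) hx0 (hx.2.trans (bb_le_one N)))
  rw [← intervalIntegral.integral_add_adjacent_intervals
    (rr_int (tt N) 0 (bb N) le_rfl hb.le (bb_le_one N))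
    (rr_int (tt N) (bb N) 1 hb.le (bb_le_one N) le_rfl)]
  have h3 : Real.sqrt (tt N) * bb N ^ 2 ≤ 225 := by
    have e0 : bb N ^ 2 = Real.sqrt (bb N ^ 4) := by
      rw [show bb N ^ 4 = (bb N ^ 2) ^ 2 by ring, Real.sqrt_sq (by positivity)]
    rw [e0, ← Real.sqrt_mul (tt_pos N).le]
    rw [Real.sqrt_le_left (by norm_num)]
    have hb4 : bb N ^ 4 * 16 ^ N = 1 := by
      unfold bb
      rw [← pow_mul, mul_comm N 4, pow_mul, ← mul_pow]
      norm_num
    unfold tt
    have e1 : 2 * Real.pi * 5625 * 16 ^ N * bb N ^ 4 = 2 * Real.pi * 5625 := by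
      linear_combination (2 * Real.pi * 5625) * hb4
    rw [e1]
    have := Real.pi_lt_d2
    nlinarith
  have h4 : (4 : ℝ) * 16 ^ N / 16 ^ N = 4 := by
    field_simp
  rw [h4] at h1
  have h5 : 0 < bb N ^ 2 := by positivity
  nlinarith

/-- The characteristic function is not `O(1/t)`. -/
theorem char_large (N : ℕ) :
    15 / 2 * N - 455 ≤ 2 * tt N * ‖∫ z, E (tt N) (z.2 - z.1 ^ 2) ∂nu‖ := by
  rw [nu_integral]
  refine (total N).trans ?_
  have ht := tt_pos N
  have h1 : ∫ x in (0 : ℝ)..1, x * rr (tt N) x =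
      (2 * Complex.I * (tt N : ℂ) * ∫ x in Ioc (0 : ℝ) 1, (x : ℂ) * G (tt N) x).re := by
    rw [intervalIntegral.integral_of_le zero_le_one, ← integral_const_mul]
    have h := integral_re ((int_xG (tt N) 0 1 le_rfl le_rfl).const_mul
      (2 * Complex.I * (tt N : ℂ)))
    have h' : (∫ a in Ioc (0 : ℝ) 1, 2 * Complex.I * (tt N : ℂ) * ((a : ℂ) * G (tt N) a)).re =
        ∫ a in Ioc (0 : ℝ) 1, (2 * Complex.I * (tt N : ℂ) * ((a : ℂ) * G (tt N) a)).re := h.symm
    rw [h']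
    refine integral_congr_ae (Filter.Eventually.of_forall fun x => ?_)
    simp only [rr]
    have : 2 * Complex.I * (tt N : ℂ) * ((x : ℂ) * G (tt N) x) =
        (x : ℂ) * (2 * Complex.I * (tt N : ℂ) * G (tt N) x) := by ring
    rw [this]
    simp
  rw [h1]
  refine (Complex.re_le_norm _).trans (le_of_eq ?_)
  rw [norm_mul, norm_mul, norm_mul]
  simp [abs_of_pos ht]

end Pool.Agent.R758.FD
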